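import Pool.Agent.Lib.MP_32f877_an.Volume

open Finset Pool.Agent.Lib.MP_32f877_an

namespace Pool.Agent.Lib.MP_32f877_an.Variants.BoundedVolume

/-- For every choice of four positive masses there is a collision-free solution of the spatial
Newtonian four-body problem on `t ≥ 0` (positions `q`, velocities `v`, accelerations `a`) whose
tetrahedron volume stays between two positive constants. -/
theorem result :
    ∀ m : Fin 4 → ℝ, (∀ i, 0 < m i) →
      ∃ q v a : Fin 4 → ℝ → EuclideanSpace ℝ (Fin 3),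
        (∀ t : ℝ, 0 ≤ t → ∀ i, HasDerivAt (q i) (v i t) t ∧ HasDerivAt (v i) (a i t) t) ∧
        (∀ t : ℝ, 0 ≤ t → ∀ i j, i ≠ j → q i t ≠ q j t) ∧
        (∀ t : ℝ, 0 ≤ t → ∀ i, m i • a i t =
          ∑ j ∈ Finset.univ.erase i, (m i * m j / ‖q j t - q i t‖ ^ 3) • (q j t - q i t)) ∧
        ∃ c C : ℝ, 0 < c ∧ c ≤ C ∧ ∀ t : ℝ, 0 ≤ t →
          c ≤ 1 / 6 * |Matrix.det (Matrix.of fun i k : Fin 3 => (q i.succ t - q 0 t) k)| ∧
          1 / 6 * |Matrix.det (Matrix.of fun i k : Fin 3 => (q i.succ t - q 0 t) k)| ≤ C := by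
  intro m hm
  set M : ℝ := ∑ j, m j with hM
  have hM0 : 0 ≤ M := sum_nonneg fun j _ => (hm j).le
  have hmM : ∀ j, m j ≤ M := fun j => single_le_sum (fun j _ => (hm j).le) (mem_univ j)
  set ω : ℝ := 1000 * (M + 1) with hω
  have hω0 : 0 < ω := by positivity
  let n : Fin 4 → ℝ := fun j => m j / ω ^ 2
  have h0 : ∀ j, 0 ≤ n j := fun j => div_nonneg (hm j).le (by positivity)
  have hμ : ∀ j, n j ≤ 1 / 1000000 := fun j => by
    simp only [n]
    rw [div_le_div_iff₀ (by positivity) (by norm_num), hω]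
    nlinarith [hmM j]
  have h1 : ∀ j, n j ≤ 1 := fun j => (hμ j).trans (by norm_num)
  obtain ⟨c, σ, hcs, hk⟩ := exists_unit_perp (3 * (kap n 1 - kap n 0) - (kap n 3 - kap n 0))
    ((kap n 2 - kap n 0) - 2 * (kap n 1 - kap n 0))
  have hb := norm_off hcs
  obtain ⟨u, w, hd, hu, hu'⟩ := exists_motion (b := off c σ) h0 hμ (by norm_num) hb
  have hs : ∀ t : ℝ, 0 ≤ t → 1 < 2 + ω * t := fun t ht => by nlinarith [mul_nonneg hω0.le ht]
  have hlin : ∀ t : ℝ, HasDerivAt (fun t : ℝ => 2 + ω * t) ω t := fun t => by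
    simpa using ((hasDerivAt_id' t).const_mul ω).const_add 2
  have hu1 : ∀ t : ℝ, 0 ≤ t → ‖u (2 + ω * t)‖ ≤ 1 := fun t ht =>
    (hu _ (hs t ht).le).trans (by norm_num)
  refine ⟨fun i t => base n (off c σ) (2 + ω * t) i + u (2 + ω * t) i,
    fun i t => ω • w i (2 + ω * t),
    fun i t => ω • ω • ∑ j ∈ univ.erase i, n j •
      att (base n (off c σ) (2 + ω * t) j + u (2 + ω * t) j -
        (base n (off c σ) (2 + ω * t) i + u (2 + ω * t) i)),
    fun t ht i => ⟨?_, ?_⟩, fun t ht i j hij => ?_, fun t ht i => ?_,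
    1 / 12, 1 / 4, by norm_num, by norm_num, fun t ht => ?_⟩
  · exact (hd i _ (hs t ht)).1.scomp t (hlin t)
  · exact ((hd i _ (hs t ht)).2.scomp t (hlin t)).const_smul ω
  · intro h
    have h2 := norm_sep h0 h1 hb (hs t ht).le (hu1 t ht) hij
    rw [sub_eq_zero.2 h, norm_zero] at h2
    linarith [hs t ht]
  · simp only [smul_sum, att, smul_smul]
    refine sum_congr rfl fun j _ => ?_
    congr 1
    simp only [n]
    field_simp
  · have h2 := abs_le.1 (det_estimate h0 h1 (by norm_num) le_rfl hcs hk (hs t ht).le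
      (hu _ (hs t ht).le) (hu' _ (hs t ht).le))
    rw [abs_of_nonneg (by linarith [h2.1])]
    constructor <;> linarith [h2.1, h2.2]

end Pool.Agent.Lib.MP_32f877_an.Variants.BoundedVolume
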